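import Pool.Agent.H301X.BG.Stmts

/-!
Project H301-BG (helper301), task Strip (helper174).
-/

set_option autoImplicit false

open MeasureTheory Topology Filter Set Metric
open scoped ENNReal NNReal

namespace Pool.Agent.H301X.BG.Strip174

open Pool.Agent.H301X.BG

theorem taskStrip : TaskStrip := by
  intro A R δ hR hδ hAR hAm hsec
  have hmp := Complex.volume_preserving_equiv_real_prod.symm
  set B : Set (ℝ × ℝ) := Complex.measurableEquivRealProd.symm ⁻¹' A with hB
  have h1 : volume A = volume B := (hmp.measure_preimage hAm.nullMeasurableSet).symm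
  have hBm : MeasurableSet B := hAm.preimage (MeasurableEquiv.measurable _)
  have hmem : ∀ x y : ℝ, (x, y) ∈ B → (⟨x, y⟩ : ℂ) ∈ A := fun x y h => h
  have hle : ∀ x : ℝ, volume (Prod.mk x ⁻¹' B) ≤
      (Ioo (-R) R).indicator (fun _ => ENNReal.ofReal (2 * δ)) x := by
    intro x
    rcases (Prod.mk x ⁻¹' B).eq_empty_or_nonempty with h | ⟨y, hy⟩
    · rw [h, measure_empty]
      exact zero_le
    · have hyA : (⟨x, y⟩ : ℂ) ∈ A := hmem x y hy
      have hx : |x| < R := by
        have h2 : ‖(⟨x, y⟩ : ℂ)‖ < R := by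
          have := hAR hyA
          rwa [mem_ball_zero_iff] at this
        exact (Complex.abs_re_le_norm (⟨x, y⟩ : ℂ)).trans_lt h2
      rw [indicator_of_mem (show x ∈ Ioo (-R) R from abs_lt.1 hx)]
      have hsub : Prod.mk x ⁻¹' B ⊆ Icc (y - δ) (y + δ) := by
        intro w hw
        have h3 := abs_le.1 (hsec _ (hmem x w hw) _ hyA rfl)
        simp only at h3
        constructor <;> linarith [h3.1, h3.2]
      refine (measure_mono hsub).trans ?_
      rw [Real.volume_Icc]
      apply ENNReal.ofReal_le_ofReal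
      linarith
  rw [h1, Measure.volume_eq_prod, Measure.prod_apply hBm]
  calc ∫⁻ x : ℝ, volume (Prod.mk x ⁻¹' B)
      ≤ ∫⁻ x : ℝ, (Ioo (-R) R).indicator (fun _ => ENNReal.ofReal (2 * δ)) x :=
        lintegral_mono hle
    _ = ENNReal.ofReal (2 * δ) * volume (Ioo (-R) R) :=
        lintegral_indicator_const measurableSet_Ioo _
    _ = ENNReal.ofReal (4 * R * δ) := by
        rw [Real.volume_Ioo, ← ENNReal.ofReal_mul (by positivity)]
        congr 1
        ring

end Pool.Agent.H301X.BG.Strip174
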